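import Pool.Agent.H93.PG.Targets

/-!
Row JJF: the contents with their neighbourhoods (4.2).
-/

set_option autoImplicit false

open MeasureTheory Filter Topology Finset Pool.Agent.H93.PF Pool.Agent.H93.PG

namespace Pool.Agent.H47.PG

theorem ex_mid {d : ℕ} {m : ℕ → ℕ} (t : Tail d m) {n : ℕ} (w : Fin n → Fin d) (i : ℕ)
    (h : i < n) : ex t w (i : ℤ) = w ⟨i, h⟩ := by
  unfold ex
  rw [dif_pos ⟨by omega, by omega⟩]
  congr 1

theorem ex_left {d : ℕ} {m : ℕ → ℕ} (t : Tail d m) {n : ℕ} (w : Fin n → Fin d) (i : ℕ) :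
    ex t w (-1 - (i : ℤ)) = t.rt i := by
  unfold ex
  rw [dif_neg (by omega), if_pos (by omega)]
  congr 1
  omega

theorem ex_right {d : ℕ} {m : ℕ → ℕ} (t : Tail d m) {n : ℕ} (w : Fin n → Fin d) (i : ℕ) :
    ex t w ((n : ℤ) + i) = t.rt i := by
  unfold ex
  rw [dif_neg (by omega), if_neg (by omega)]
  congr 1
  omega

/-- the abstract form -/
theorem jj_core {d : ℕ} {m : ℕ → ℕ} (t : Tail d m) {K n : ℕ} (p : Fin n → Fin d)
    (hp : p ∈ VV t K n) (z : ℤ → Fin d) (f lo hi : ℤ) (hz : ∀ x : ℤ, lo ≤ x → x < hi →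
      z (f + x) = ex t p x) (q : ℕ) (x : ℤ) (hq : 0 < q) (h1 : f + lo ≤ x) (h2 : x + m q ≤ f + hi)
    (hsize : 4 * (hi - lo) ≤ 5 * n) :
    ∃ s : ℤ, x ≤ s ∧ s + q < x + m q ∧ z (s + q) ≠ z s := by
  classical
  obtain ⟨-, -, -, -, hLG, hRG, -, hT2⟩ := Finset.mem_filter.mp hp
  have hm2 := t.m2 q hq
  by_cases ha : x + m q ≤ f + n
  · -- inside of the left part
    obtain ⟨s, s1, s2, s3⟩ := hLG (f - x).toNat q (x - f) hq (by omega) (by omega)
    refine ⟨f + s, by omega, by omega, ?_⟩
    rw [show f + s + (q : ℤ) = f + (s + q) by ring, hz (s + q) (by omega) (by omega),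
      hz s (by omega) (by omega)]
    exact s3
  · by_cases hb : f ≤ x
    · obtain ⟨s, s1, s2, s3⟩ := hRG (x + m q - f - n).toNat q (x - f) hq (by omega) (by omega)
      refine ⟨f + s, by omega, by omega, ?_⟩
      rw [show f + s + (q : ℤ) = f + (s + q) by ring, hz (s + q) (by omega) (by omega),
        hz s (by omega) (by omega)]
      exact s3
    · by_contra hcon
      push Not at hcon
      refine hT2 q hq ?_ ?_
      · have : 2 * (q : ℤ) ≤ hi - lo := by
          have e1 : (2 * q : ℤ) ≤ m q := by exact_mod_cast hm2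
          omega
        omega
      · intro j hj _ _
        have e := hcon (f + j) (by omega) (by omega)
        rw [show f + (j : ℤ) + (q : ℤ) = f + ((j + q : ℕ) : ℤ) by push_cast; ring,
          hz ((j + q : ℕ) : ℤ) (by omega) (by omega), hz (j : ℤ) (by omega) (by omega),
          ex_mid t p (j + q) hj, ex_mid t p j (by omega)] at e
        exact e

theorem pf_JJF : T_JJF := by
  classical
  intro d m c D B z col hT s hs g hg g' hg' q x hq h1 h2
  have hY0 := c.t.Y0
  have hfr := D.fr
  have hlen := hfr.len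
  have hbig := D.big
  have hL : D.L = D.n + D.N0 := rfl
  obtain ⟨g0, hg0, hN0⟩ := hT.next s hs
  obtain ⟨g0', hg0', hN0'⟩ := hT.next (s + g) hg.2.1
  have uniqN : ∀ (u : ℤ) (a b : ℕ), Nx B u a → Nx B u b → a = b := by
    intro u a b ha hb
    rcases Nat.lt_trichotomy a b with h | h | h
    · exact absurd ha.2.1 (hb.2.2 (u + a) (by have := ha.1; omega) (by omega))
    · exact h
    · exact absurd hb.2.1 (ha.2.2 (u + b) (by have := hb.1; omega) (by omega))
  have hgg : g = D.L ∨ g = D.L + 1 := by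
    rw [uniqN s g g0 hg hN0]
    exact hg0
  have hgg' : g' = D.L ∨ g' = D.L + 1 := by
    rw [uniqN (s + g) g' g0' hg' hN0']
    exact hg0'
  obtain ⟨hc1, k, hk, hw⟩ := hT.pp s hs g hg
  obtain ⟨hc1', k', hk', hw'⟩ := hT.pp (s + g) hg.2.1 g' hg'
  set p := D.pc (col s) k with hp
  have hpV : p ∈ VV c.t D.K D.n := D.cc.mem (col s) k hc1 hk
  have hpV' : D.pc (col (s + g)) k' ∈ VV c.t D.K D.n := D.cc.mem _ k' hc1' hk'
  have hSt' := (Finset.mem_filter.mp hpV').2.2.1
  set f : ℤ := s + g + c.t.Y - D.n with hf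
  -- the middle part
  have hmid : ∀ i : ℕ, i < D.n → z (f + i) = ex c.t p i := by
    intro i hi
    rw [ex_mid c.t p i hi, ← hw]
    rfl
  -- the left part
  have hleft : ∀ i : ℕ, (i : ℤ) < (if g = D.L then (D.N0 : ℤ) else D.k2) + c.t.Y - 1 →
      z (f + (-1 - (i : ℤ))) = c.t.rt i := by
    intro i hi
    rcases hgg with hg1 | hg1
    · rw [if_pos hg1] at hi
      by_cases hi2 : i < D.N0
      · have e := hT.fs s hs (hg1 ▸ hg) (D.N0 - 1 - i) (by omega)
        rw [← hfr.pal i hi2, ← e]
        congr 1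
        rw [hf, hg1, hL]
        omega
      · have e := (hfr.nx (i - D.N0) (by omega)).1
        rw [show D.N0 + (i - D.N0) = i by omega] at e
        rw [e, ← hT.y0 s hs (c.t.Y - 1 - (i - D.N0)) (by omega)]
        congr 1
        rw [hf, hg1, hL]
        omega
    · have hne : ¬ g = D.L := by omega
      rw [if_neg hne] at hi
      by_cases hi2 : i < D.k2
      · have e := hT.f3 s hs (hg1 ▸ hg) (D.k2 - 1 - i) (by omega)
        rw [show D.k2 - 1 - (D.k2 - 1 - i) = i by omega] at e
        rw [← e]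
        congr 1
        rw [hf, hg1, hL]
        omega
      · have e := (hfr.nx (i - D.k2) (by omega)).2.2
        rw [show D.k2 + (i - D.k2) = i by omega] at e
        rw [e, ← hT.f2 s hs (hg1 ▸ hg) (c.t.Y - 1 - (i - D.k2)) (by omega)]
        congr 1
        rw [hf, hg1, hL]
        omega
  -- the right part
  have hright : ∀ i : ℕ, (i : ℤ) < (if g' = D.L then (D.N0 : ℤ) else D.k1) + c.t.Y - 1 →
      z (f + (D.n + (i : ℤ))) = c.t.rt i := by
    intro i hi
    rcases hgg' with hg1 | hg1
    · rw [if_pos hg1] at hi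
      by_cases hi2 : i < D.N0
      · have e := hT.fs (s + g) hg.2.1 (hg1 ▸ hg') i hi2
        rw [← e]
        congr 1
        rw [hf]
        omega
      · have e := (hfr.nx (i - D.N0) (by omega)).1
        rw [show D.N0 + (i - D.N0) = i by omega] at e
        have e2 := hSt' (i - D.N0) (by omega) (by omega)
        rw [c.ye] at e2
        have e3 : win z (s + g + g' + c.t.Y - D.n) D.n ⟨i - D.N0, by omega⟩ = c.e := by
          rw [hw']
          exact e2
        have e4 : z (s + g + g' + c.t.Y - D.n + ((i - D.N0 : ℕ) : ℤ)) = c.e := e3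
        rw [e, ← e4]
        congr 1
        rw [hf]
        omega
    · have hne : ¬ g' = D.L := by omega
      rw [if_neg hne] at hi
      by_cases hi2 : i < D.k1
      · have e := hT.f1 (s + g) hg.2.1 (hg1 ▸ hg') i hi2
        rw [← e]
        congr 1
        rw [hf]
        omega
      · have e := (hfr.nx (i - D.k1) (by omega)).2.1
        rw [show D.k1 + (i - D.k1) = i by omega] at e
        rw [e, ← hT.f2 (s + g) hg.2.1 (hg1 ▸ hg') (i - D.k1) (by omega)]
        congr 1
        rw [hf]
        omega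
  set κ : ℤ := if g = D.L then (D.N0 : ℤ) else D.k2 with hκ
  set κ' : ℤ := if g' = D.L then (D.N0 : ℤ) else D.k1 with hκ'
  have hκ1 : 0 ≤ κ ∧ κ ≤ D.N0 := by
    rw [hκ]
    split_ifs <;> omega
  have hκ2 : 0 ≤ κ' ∧ κ' ≤ D.N0 := by
    rw [hκ']
    split_ifs <;> omega
  refine jj_core c.t p hpV z f (-(κ + c.t.Y - 1)) (D.n + κ' + c.t.Y - 1) ?_ q x hq ?_ ?_ ?_
  · intro y hy1 hy2
    by_cases hy0 : y < 0
    · have e := hleft (-1 - y).toNat (by omega)
      have e2 : (-1 - (((-1 - y).toNat : ℕ) : ℤ)) = y := by omega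
      have e3 := ex_left c.t p (-1 - y).toNat
      rw [e2] at e e3
      rw [e, e3]
    · by_cases hyn : y < D.n
      · have e := hmid y.toNat (by omega)
        have e2 : ((y.toNat : ℕ) : ℤ) = y := by omega
        rw [e2] at e
        exact e
      · have e := hright (y - D.n).toNat (by omega)
        have e2 : ((D.n : ℤ) + (((y - D.n).toNat : ℕ) : ℤ)) = y := by omega
        have e3 := ex_right c.t p (y - D.n).toNat
        rw [e2] at e e3
        rw [e, e3]
  · refine le_trans (le_of_eq ?_) h1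
    rcases hgg with hg1 | hg1
    · rw [hκ, if_pos hg1, if_pos hg1, hf, hg1, hL]
      push_cast
      ring
    · have hne : ¬ g = D.L := by omega
      rw [hκ, if_neg hne, if_neg hne, hf, hg1, hL]
      omega
  · refine h2.trans (le_of_eq ?_)
    rcases hgg' with hg1 | hg1
    · rw [hκ', if_pos hg1, if_pos hg1, hf]
      ring
    · have hne : ¬ g' = D.L := by omega
      rw [hκ', if_neg hne, if_neg hne, hf]
      ring
  · omega

end Pool.Agent.H47.PG
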