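import Pool.Agent.H93.PG.Targets
import Pool.Agent.H93.PF.All

/-!
Row RCG: recognition of the levels (5.2).
-/

set_option autoImplicit false

open MeasureTheory Filter Topology Finset Pool.Agent.H93.PF Pool.Agent.H93.PG

namespace Pool.Agent.H47.PG

theorem pf_RCG : T_RCG := by
  intro L B c hS hL q a b hQ hc k
  have hSKR := Pool.Agent.H93.PF.All.r_SKR
  have P : ∀ K : ℕ, QI (B K) q a (b - sg L K) ∧
      (∀ j ∈ B K, a ≤ j → j + q < b - sg L K → c (j + q) = c j) := by
    intro K
    induction K with
    | zero =>
      have e : b - (sg L 0 : ℤ) = b := by simp [sg]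
      rw [e]
      exact ⟨hQ, hc⟩
    | succ K ih =>
      obtain ⟨i1, i2⟩ := ih
      have hsg : (sg L (K + 1) : ℤ) = sg L K + 2 * gg L K := by
        change ((sg L K + 2 * gg L K : ℕ) : ℤ) = _
        push_cast; ring
      refine ⟨?_, ?_⟩
      · intro t ht ht'
        rw [hsg] at ht'
        have main : t ∈ B K → (t ∈ B (K + 1) ↔ t + q ∈ B (K + 1)) := by
          intro htK
          obtain ⟨g₁, -, hg1, hN1⟩ := hS.next K t htK
          obtain ⟨g₂, -, hg2, hN2⟩ := hS.next K (t + g₁) hN1.2.1
          have htq : t + q ∈ B K := (i1 t ht (by omega)).1 htK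
          have hN1' : Nx (B K) (t + q) g₁ := Nx.shift i1 ht (by omega) hN1
          have hN2' : Nx (B K) (t + q + g₁) g₂ := by
            have := Nx.shift i1 (j := t + g₁) (by omega) (by omega) hN2
            rwa [show t + (q : ℤ) + g₁ = t + g₁ + q by ring]
          have e1 : c (t + q + g₁) = c (t + g₁) := by
            have := i2 (t + g₁) hN1.2.1 (by omega) (by omega)
            rwa [show t + (q : ℤ) + g₁ = t + g₁ + q by ring]
          have e2 : c (t + q + g₁ + g₂) = c (t + g₁ + g₂) := by
            have := i2 (t + g₁ + g₂) hN2.2.1 (by omega) (by omega)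
            rwa [show t + (q : ℤ) + g₁ + g₂ = t + g₁ + g₂ + q by ring]
          rw [hSKR L B c hS hL K t g₁ g₂ htK hN1 hN2, hSKR L B c hS hL K (t + q) g₁ g₂ htq hN1' hN2',
            e1, e2]
        constructor
        · intro h
          exact (main (hS.nest K h)).1 h
        · intro h
          exact (main ((i1 t ht (by omega)).2 (hS.nest K h))).2 h
      · intro t ht ht1 ht2
        exact i2 t (hS.nest K ht) ht1 (by rw [hsg] at ht2; omega)
  exact (P k).1

end Pool.Agent.H47.PG
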