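import Pool.Agent.H93.PG.Targets
import Pool.Agent.H93.PF.All

/-!
Row TCX: existence of good tiles for all the pairs.
-/

set_option autoImplicit false

open MeasureTheory Filter Topology Finset Pool.Agent.H93.PF Pool.Agent.H93.PG

namespace Pool.Agent.H47.PG

theorem gd_rt {d : ℕ} {m : ℕ → ℕ} (t : Tail d m) (n : ℕ) :
    Gd m (fun i : Fin n => t.rt (i : ℕ)) := by
  intro q i hq hi hP
  obtain ⟨j, h1, h2, h3⟩ := t.c1 q (t.Y + i) hq
  have e1 : xx t.Y t.y t.rt (j + q) = t.rt (j - t.Y + q) := by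
    unfold xx
    rw [if_neg (by omega)]
    congr 1
    omega
  have e2 : xx t.Y t.y t.rt j = t.rt (j - t.Y) := by
    unfold xx
    rw [if_neg (by omega)]
  rw [e1, e2] at h3
  exact h3 (hP (j - t.Y) (by omega) (by omega) (by omega))

theorem ff_pos {d : ℕ} {m : ℕ → ℕ} (t : Tail d m) (n : ℕ) : 1 ≤ (FF d m n).card := by
  classical
  refine Finset.card_pos.mpr ⟨fun i : Fin n => t.rt (i : ℕ), ?_⟩
  unfold FF
  exact Finset.mem_filter.mpr ⟨Finset.mem_univ _, gd_rt t n⟩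

theorem tcx_aux (hGRW : T_GRW) (hTCE : T_TCE) (d : ℕ) (β : ℝ) (plus : Bool) (hβ : 1 < β)
    (hE : 0 < topEnt (PFS d β plus)) (c : CT d (mm β plus))
    (hR : ∀ H : ℝ, Gr d (mm β plus) H → 0 < H → Rich H fun n => (NN c.t n).card)
    (h' : ℝ) (hh : h' < topEnt (PFS d β plus)) (N n₀ : ℕ) :
    ∃ tc : TC d (mm β plus) N, n₀ ≤ tc.L ∧ Real.exp (h' * (tc.L + 1)) ≤ tc.Q := by
  have hpos := fun n => ff_pos c.t n
  obtain ⟨H, hG, hmax⟩ := hGRW d (mm β plus) hpos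
  have hle := hmax _ (Pool.Agent.H93.PF.All.r_ENT d β plus hβ hpos)
  have hH : 0 < H := hE.trans_le hle
  exact hTCE d _ c H hG hH (hR H hG hH) h' (hh.trans_le hle) N n₀

theorem pf_TCX (hGRW : T_GRW) (hMM2 : T_MM2) (hTA2 : T_TA2) (hTA3 : T_TA3) (hTA4 : T_TA4)
    (hSA1 : T_SA1) (hSA2 : T_SA2) (hTCE : T_TCE) : T_TCX := by
  intro d β plus hok hE h' hh N n₀
  have hβ : 1 < β := by
    rcases hok with ⟨-, h⟩ | ⟨-, h | ⟨h, -⟩⟩ | ⟨-, h | ⟨h, -⟩⟩ <;> linarith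
  have case3 : 3 ≤ d → (2 < β ∨ (2 ≤ β ∧ plus = true)) →
      ∃ tc : TC d (mm β plus) N, n₀ ≤ tc.L ∧ Real.exp (h' * (tc.L + 1)) ≤ tc.Q := by
    intro hd hb
    obtain ⟨c, hc⟩ := hTA3 d (mm β plus) hd (fun q hq => (hMM2 β plus q hq).2.1 hb)
    exact tcx_aux hGRW hTCE d β plus hβ hE c (fun H hG hH => hSA1 d _ c.t H hG hH hc) h' hh N n₀
  rcases hok with ⟨hd, hb⟩ | ⟨hd, hb⟩ | ⟨hd, hb⟩
  · obtain ⟨c, hc⟩ := hTA4 d (mm β plus) hd (fun q hq => (hMM2 β plus q hq).1 hb)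
    exact tcx_aux hGRW hTCE d β plus hβ hE c (fun H hG hH => hSA1 d _ c.t H hG hH hc) h' hh N n₀
  · exact case3 hd hb
  · rcases Nat.lt_or_ge 2 d with h3 | h2
    · refine case3 h3 ?_
      rcases hb with hb | ⟨hb, hp⟩
      · left
        linarith
      · right
        exact ⟨by linarith, hp⟩
    · have hd2 : d = 2 := by omega
      subst hd2
      have hm : ∀ q, 0 < q → 3 * q + 1 ≤ mm β plus q := fun q hq => (hMM2 β plus q hq).2.2 hb
      obtain ⟨c, hc⟩ := hTA2 (mm β plus) hm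
      exact tcx_aux hGRW hTCE 2 β plus hβ hE c (fun H hG _ => hSA2 _ c H hm hG hc) h' hh N n₀

end Pool.Agent.H47.PG
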